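import Pool.Agent.Lib.MP_b67aea_co.Proof

/-!
For every `k ≥ 4` and every sufficiently large `n` the map `pre k` is not injective on the
partitions of `n` with more than `k` parts.
-/

namespace Pool.Agent.Results.MP_b67aea_co.AllLargeK

open Pool.Agent.Lib.MP_b67aea_co

theorem result : ∀ k, 4 ≤ k → ∃ M, ∀ n, M ≤ n → ¬ PreInjectiveOn k n := main

end Pool.Agent.Results.MP_b67aea_co.AllLargeK
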